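import Mathlib
import Pool.Agent.Q155.BZ.Stm

set_option autoImplicit false

/-!
Project BZ: the complex Gamma integral, Mellin transform of `f` along a ray for `Re s > 2`, and the
rotation of the ray (BZ-5).
-/

open Complex Set Filter Asymptotics MeasureTheory Topology

namespace Pool.Agent.Q2.BZ

open Pool.Agent.Q155.BZ

/-- integrability of `x^(s-1) exp (-u x)` -/
theorem cgam_conv (u s : ℂ) (hu : 0 < u.re) (hs : 0 < s.re) :
    MellinConvergent (fun x : ℝ => Complex.exp (-(u * (x : ℂ)))) s := by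
  apply mellinConvergent_of_isBigO_rpow_exp (a := u.re) (b := 0) hu
  · exact (Continuous.locallyIntegrable (by fun_prop)).locallyIntegrableOn _
  · refine IsBigO.of_bound 1 (Eventually.of_forall fun x => ?_)
    rw [Complex.norm_exp, Real.norm_eq_abs, abs_of_pos (Real.exp_pos _)]
    simp
  · refine IsBigO.of_bound 1 ?_
    filter_upwards [self_mem_nhdsWithin] with x hx
    have hx0 : (0 : ℝ) < x := hx
    rw [Complex.norm_exp]
    simp only [neg_re, mul_re, ofReal_re, ofReal_im, mul_zero, sub_zero, neg_zero, Real.rpow_zero,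
      norm_one, mul_one, Real.exp_le_one_iff]
    nlinarith
  · exact hs

/-- differentiability in the parameter `u` -/
theorem cgam_diff (u s : ℂ) (hu : 0 < u.re) (hs : 0 < s.re) :
    DifferentiableAt ℂ (fun u : ℂ => mellin (fun x : ℝ => Complex.exp (-(u * (x : ℂ)))) s) u := by
  have h2 : 0 < u.re / 2 := by positivity
  have hconv : ∀ v : ℂ, 0 < v.re →
      IntegrableOn (fun x : ℝ => (x : ℂ) ^ (s - 1) * Complex.exp (-(v * (x : ℂ)))) (Ioi 0) := by
    intro v hv
    have := cgam_conv v s hv hs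
    rw [MellinConvergent] at this
    simpa only [smul_eq_mul] using this
  have hconv1 : IntegrableOn (fun x : ℝ => (x : ℂ) ^ (s + 1 - 1) *
      Complex.exp (-(((u.re / 2 : ℝ) : ℂ) * (x : ℂ)))) (Ioi 0) := by
    have := cgam_conv ((u.re / 2 : ℝ) : ℂ) (s + 1) (by simpa using h2)
      (by simp only [add_re, one_re]; linarith)
    rw [MellinConvergent] at this
    simpa only [smul_eq_mul] using this
  have key := hasDerivAt_integral_of_dominated_loc_of_deriv_le
    (μ := volume.restrict (Ioi (0 : ℝ)))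
    (F := fun (v : ℂ) (x : ℝ) => (x : ℂ) ^ (s - 1) * Complex.exp (-(v * (x : ℂ))))
    (F' := fun (v : ℂ) (x : ℝ) => (x : ℂ) ^ (s - 1) *
      (Complex.exp (-(v * (x : ℂ))) * (-(x : ℂ))))
    (bound := fun x : ℝ => ‖(x : ℂ) ^ (s + 1 - 1) *
      Complex.exp (-(((u.re / 2 : ℝ) : ℂ) * (x : ℂ)))‖)
    (x₀ := u) (s := Metric.ball u (u.re / 2)) (Metric.ball_mem_nhds u h2) ?_ ?_ ?_ ?_ ?_ ?_
  · have h := key.2.differentiableAt
    simpa only [mellin, smul_eq_mul] using h
  · filter_upwards [(isOpen_lt continuous_const Complex.continuous_re).mem_nhds hu] with v hv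
    exact (hconv v hv).aestronglyMeasurable
  · exact hconv u hu
  · have h1 := (hconv u hu).aestronglyMeasurable
    have h3 : AEStronglyMeasurable (fun x : ℝ => -(x : ℂ)) (volume.restrict (Ioi (0 : ℝ))) :=
      (Continuous.aestronglyMeasurable (by fun_prop))
    refine (h1.mul h3).congr (Eventually.of_forall fun x => ?_)
    simp only [Pi.mul_apply]
    ring
  · rw [ae_restrict_iff' measurableSet_Ioi]
    refine Eventually.of_forall fun x hx v hv => ?_
    have hx0 : (0 : ℝ) < x := hx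
    have hxc : (x : ℂ) ≠ 0 := by exact_mod_cast hx0.ne'
    have hvre : u.re / 2 ≤ v.re := by
      have h4 : |(v - u).re| ≤ ‖v - u‖ := Complex.abs_re_le_norm _
      have h5 : ‖v - u‖ < u.re / 2 := by simpa [Metric.mem_ball, dist_eq_norm] using hv
      have h6 := (abs_le.mp h4).1
      simp only [sub_re] at h6
      linarith
    have e1 : (x : ℂ) ^ (s + 1 - 1) = (x : ℂ) ^ (s - 1) * (x : ℂ) := by
      have : s + 1 - 1 = (s - 1) + 1 := by ring
      rw [this, Complex.cpow_add _ _ hxc, Complex.cpow_one]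
    rw [e1, norm_mul, norm_mul, norm_mul, norm_mul, norm_neg, Complex.norm_exp, Complex.norm_exp,
      mul_assoc]
    have h7 : Real.exp (-(v * (x : ℂ))).re ≤ Real.exp (-(((u.re / 2 : ℝ) : ℂ) * (x : ℂ))).re := by
      apply Real.exp_le_exp.mpr
      simp only [neg_re, mul_re, ofReal_re, ofReal_im, mul_zero, sub_zero]
      nlinarith
    have h8 : 0 ≤ ‖(x : ℂ)‖ := norm_nonneg _
    have h9 : 0 ≤ ‖(x : ℂ) ^ (s - 1)‖ := norm_nonneg _
    have h10 := mul_le_mul_of_nonneg_right h7 h8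
    have h11 := mul_le_mul_of_nonneg_left h10 h9
    rw [mul_comm ‖(x : ℂ)‖ (Real.exp (-(((u.re / 2 : ℝ) : ℂ) * (x : ℂ))).re)]
    exact h11
  · exact hconv1.norm
  · refine Eventually.of_forall fun x v _ => ?_
    have h1 : HasDerivAt (fun v : ℂ => -(v * (x : ℂ))) (-(x : ℂ)) v := by
      have := ((hasDerivAt_id v).mul_const (x : ℂ)).fun_neg
      simpa using this
    exact (h1.cexp).const_mul _

/-- the complex Gamma integral -/
theorem cgam (u s : ℂ) (hu : 0 < u.re) (hs : 0 < s.re) :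
    mellin (fun x : ℝ => Complex.exp (-(u * (x : ℂ)))) s = Gamma s * u ^ (-s) := by
  have hU : IsOpen {v : ℂ | 0 < v.re} := isOpen_lt continuous_const Complex.continuous_re
  have hpre : IsPreconnected {v : ℂ | 0 < v.re} :=
    (convex_halfSpace_re_gt 0).isPreconnected
  have ha : AnalyticOnNhd ℂ
      (fun u : ℂ => mellin (fun x : ℝ => Complex.exp (-(u * (x : ℂ)))) s) {v : ℂ | 0 < v.re} :=
    DifferentiableOn.analyticOnNhd
      (fun v hv => (cgam_diff v s hv hs).differentiableWithinAt) hU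
  have hb : AnalyticOnNhd ℂ (fun u : ℂ => Gamma s * u ^ (-s)) {v : ℂ | 0 < v.re} := by
    apply DifferentiableOn.analyticOnNhd _ hU
    intro v hv
    have hv' : v ∈ slitPlane := Or.inl hv
    exact ((differentiableAt_id.cpow_const hv').const_mul _).differentiableWithinAt
  have h1 : (1 : ℂ) ∈ {v : ℂ | 0 < v.re} := by simp
  have hfreq : ∃ᶠ v in 𝓝[≠] (1 : ℂ),
      mellin (fun x : ℝ => Complex.exp (-(v * (x : ℂ)))) s = Gamma s * v ^ (-s) := by
    have ht : Tendsto (fun r : ℝ => (r : ℂ)) (𝓝[>] (1 : ℝ)) (𝓝[≠] (1 : ℂ)) := by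
      apply tendsto_nhdsWithin_of_tendsto_nhds_of_eventually_within
      · have : Tendsto (fun r : ℝ => (r : ℂ)) (𝓝 (1 : ℝ)) (𝓝 ((1 : ℝ) : ℂ)) :=
          (Complex.continuous_ofReal.tendsto _)
        rw [Complex.ofReal_one] at this
        exact this.mono_left nhdsWithin_le_nhds
      · filter_upwards [self_mem_nhdsWithin] with r hr
        have hr1 : (1 : ℝ) < r := hr
        simp only [mem_compl_iff, mem_singleton_iff]
        intro h
        have : r = 1 := by exact_mod_cast h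
        linarith
    refine ht.frequently (Eventually.frequently ?_)
    filter_upwards [self_mem_nhdsWithin] with r hr
    have hr1 : (1 : ℝ) < r := hr
    have hr0 : (0 : ℝ) < r := by linarith
    have h2 := integral_cpow_mul_exp_neg_mul_Ioi hs hr0
    rw [mellin]
    simp only [smul_eq_mul]
    rw [h2, mul_comm]
    congr 1
    rw [one_div, Complex.inv_cpow, Complex.cpow_neg]
    rw [Complex.arg_ofReal_of_nonneg hr0.le]
    exact Real.pi_pos.ne
  have := ha.eqOn_of_preconnected_of_frequently_eq hb hpre h1 hfreq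
  exact this hu

/-- the Mellin transform of `f` along a ray, `Re s > 2` -/
theorem direct (h1 : S_SER) (a θ : ℝ) (ha : 0 < a) (hθ : 0 < θ) (u : ℂ) (hu : 0 < u.re) (s : ℂ)
    (hs : 2 < s.re) :
    MellinConvergent (fun x : ℝ => f a θ (u * (x : ℂ))) s ∧
    mellin (fun x : ℝ => f a θ (u * (x : ℂ))) s
      = u ^ (-s) * (Gamma s * Z a θ s - ((1 / θ : ℝ) : ℂ) * Gamma (s - 2)
          - ((b1 a θ : ℝ) : ℂ) * Gamma (s - 1)) := by
  have hu0 : u ≠ 0 := by
    rintro rfl
    simp at hu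
  obtain ⟨-, hser⟩ := h1 a θ ha hθ s hs
  obtain ⟨hc0, hm0⟩ := hser u hu
  have hs2 : 0 < (s - 2).re := by simp only [sub_re, re_ofNat]; linarith
  have hs1 : 0 < (s - 1).re := by simp only [sub_re, one_re]; linarith
  set E : ℝ → ℂ := fun x : ℝ => Complex.exp (-(u * (x : ℂ))) with hE
  have hc2 : MellinConvergent (fun x : ℝ => (x : ℂ) ^ (-2 : ℂ) • E x) s := by
    rw [MellinConvergent.cpow_smul]
    have : s + -2 = s - 2 := by ring
    rw [this]
    exact cgam_conv u _ hu hs2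
  have hm2 : mellin (fun x : ℝ => (x : ℂ) ^ (-2 : ℂ) • E x) s
      = Gamma (s - 2) * u ^ (-(s - 2)) := by
    rw [mellin_cpow_smul]
    have : s + -2 = s - 2 := by ring
    rw [this]
    exact cgam u _ hu hs2
  have hc1 : MellinConvergent (fun x : ℝ => (x : ℂ) ^ (-1 : ℂ) • E x) s := by
    rw [MellinConvergent.cpow_smul]
    have : s + -1 = s - 1 := by ring
    rw [this]
    exact cgam_conv u _ hu hs1
  have hm1 : mellin (fun x : ℝ => (x : ℂ) ^ (-1 : ℂ) • E x) s
      = Gamma (s - 1) * u ^ (-(s - 1)) := by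
    rw [mellin_cpow_smul]
    have : s + -1 = s - 1 := by ring
    rw [this]
    exact cgam u _ hu hs1
  have hfun : (fun x : ℝ => f a θ (u * (x : ℂ))) = fun x : ℝ =>
      h a θ (u * (x : ℂ)) -
        ((((1 / θ : ℝ) : ℂ) * (u ^ 2)⁻¹) • ((x : ℂ) ^ (-2 : ℂ) • E x)) -
        ((((b1 a θ : ℝ) : ℂ) * u⁻¹) • ((x : ℂ) ^ (-1 : ℂ) • E x)) := by
    funext x
    have e2 : (x : ℂ) ^ (-2 : ℂ) = ((x : ℂ) ^ 2)⁻¹ := by
      rw [Complex.cpow_neg]
      congr 1
      exact Complex.cpow_ofNat _ _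
    have e1 : (x : ℂ) ^ (-1 : ℂ) = (x : ℂ)⁻¹ := Complex.cpow_neg_one _
    simp only [f, hE, smul_eq_mul, e1, e2]
    generalize h a θ (u * (x : ℂ)) = A
    generalize ((1 / θ : ℝ) : ℂ) = B
    generalize ((b1 a θ : ℝ) : ℂ) = D
    rw [div_eq_mul_inv, div_eq_mul_inv, mul_pow, mul_inv, mul_inv]
    ring
  have k2 := hasMellin_const_smul hc2 (((1 / θ : ℝ) : ℂ) * (u ^ 2)⁻¹)
  have k1 := hasMellin_const_smul hc1 (((b1 a θ : ℝ) : ℂ) * u⁻¹)
  have k3 := hasMellin_sub hc0 k2.1
  have k4 := hasMellin_sub k3.1 k1.1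
  rw [hfun]
  refine ⟨k4.1, ?_⟩
  rw [k4.2, k3.2, k2.2, k1.2, hm0, hm1, hm2]
  have p2 : u ^ (-(s - 2)) = u ^ (-s) * u ^ 2 := by
    have : -(s - 2) = -s + 2 := by ring
    rw [this, Complex.cpow_add _ _ hu0]
    congr 1
    exact Complex.cpow_ofNat _ _
  have p1 : u ^ (-(s - 1)) = u ^ (-s) * u := by
    have : -(s - 1) = -s + 1 := by ring
    rw [this, Complex.cpow_add _ _ hu0, Complex.cpow_one]
  rw [p2, p1]
  simp only [smul_eq_mul]
  field_simp

/-- convergence and differentiability of the Mellin transform of `f` along a ray, `Re s > 0` -/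
theorem ray (h2 : S_NEAR) (h3 : S_FAR) (a θ : ℝ) (ha : 0 < a) (hθ : 0 < θ) (u : ℂ) (hu : 0 < u.re)
    (s : ℂ) (hs : 0 < s.re) :
    MellinConvergent (fun x : ℝ => f a θ (u * (x : ℂ))) s ∧
    DifferentiableAt ℂ (mellin (fun x : ℝ => f a θ (u * (x : ℂ)))) s := by
  obtain ⟨ρ, hρ, ⟨C, hC⟩, -⟩ := h2 a θ hθ
  obtain ⟨hcont, -, c, hc, hO, -, -⟩ := h3 a θ ha hθ u hu
  have hu0 : u ≠ 0 := by
    rintro rfl
    simp at hu
  have hun : 0 < ‖u‖ := norm_pos_iff.mpr hu0
  have hloc : LocallyIntegrableOn (fun x : ℝ => f a θ (u * (x : ℂ))) (Ioi 0) :=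
    hcont.locallyIntegrableOn measurableSet_Ioi
  have htop : (fun x : ℝ => f a θ (u * (x : ℂ))) =O[atTop] fun t => Real.exp (-c * t) := by
    have : (fun t => Real.exp (-c * t)) = fun x => Real.exp (-(c * x)) := by
      funext x
      rw [neg_mul]
    rw [this]
    exact hO
  have hbot : (fun x : ℝ => f a θ (u * (x : ℂ))) =O[𝓝[>] 0] (fun x : ℝ => x ^ (-(0 : ℝ))) := by
    refine IsBigO.of_bound C ?_
    have hmem : Ioo (0 : ℝ) (ρ / ‖u‖) ∈ 𝓝[>] (0 : ℝ) := Ioo_mem_nhdsGT (by positivity)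
    filter_upwards [hmem] with x hx
    rw [neg_zero, Real.rpow_zero, norm_one, mul_one]
    apply hC
    · simp only [mul_re, ofReal_re, ofReal_im, mul_zero, sub_zero]
      exact mul_pos hu hx.1
    · rw [norm_mul, Complex.norm_real, Real.norm_eq_abs, abs_of_pos hx.1]
      have := hx.2
      rw [lt_div_iff₀ hun] at this
      rw [mul_comm]
      exact this.le
  exact ⟨mellinConvergent_of_isBigO_rpow_exp hc hloc htop hbot hs,
    mellin_differentiableAt_of_isBigO_rpow_exp hc hloc htop hbot hs⟩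

/-- identity theorem on the right half plane -/
theorem half (A B : ℂ → ℂ) (hA : ∀ s : ℂ, 0 < s.re → DifferentiableAt ℂ A s)
    (hB : ∀ s : ℂ, 0 < s.re → DifferentiableAt ℂ B s) (hAB : ∀ s : ℂ, 2 < s.re → A s = B s)
    (s : ℂ) (hs : 0 < s.re) : A s = B s := by
  have hU : IsOpen {v : ℂ | 0 < v.re} := isOpen_lt continuous_const Complex.continuous_re
  have hU2 : IsOpen {v : ℂ | 2 < v.re} := isOpen_lt continuous_const Complex.continuous_re
  have hpre : IsPreconnected {v : ℂ | 0 < v.re} :=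
    (convex_halfSpace_re_gt 0).isPreconnected
  have ha : AnalyticOnNhd ℂ A {v : ℂ | 0 < v.re} :=
    DifferentiableOn.analyticOnNhd (fun v hv => (hA v hv).differentiableWithinAt) hU
  have hb : AnalyticOnNhd ℂ B {v : ℂ | 0 < v.re} :=
    DifferentiableOn.analyticOnNhd (fun v hv => (hB v hv).differentiableWithinAt) hU
  have h3 : (3 : ℂ) ∈ {v : ℂ | 0 < v.re} := by simp
  have hev : A =ᶠ[𝓝 (3 : ℂ)] B := by
    filter_upwards [hU2.mem_nhds (show (3 : ℂ) ∈ {v : ℂ | 2 < v.re} by norm_num)] with v hv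
    exact hAB v hv
  exact ha.eqOn_of_preconnected_of_eventuallyEq hb hpre h3 hev hs

/-- BZ-5 -/
theorem rot (h1 : S_SER) (h2 : S_NEAR) (h3 : S_FAR) : S_ROT := by
  intro a θ ha hθ u hu s hs
  have hu0 : u ≠ 0 := by
    rintro rfl
    simp at hu
  refine ⟨(ray h2 h3 a θ ha hθ u hu s hs).1, ?_⟩
  have e1 : (fun x : ℝ => f a θ (x : ℂ)) = fun x : ℝ => f a θ (1 * (x : ℂ)) := by
    funext x
    rw [one_mul]
  have hone : 0 < (1 : ℂ).re := by simp
  rw [e1]
  refine half (mellin (fun x : ℝ => f a θ (u * (x : ℂ))))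
    (fun s => u ^ (-s) * mellin (fun x : ℝ => f a θ (1 * (x : ℂ))) s)
    (fun s hs => (ray h2 h3 a θ ha hθ u hu s hs).2) (fun s hs => ?_) (fun s hs => ?_) s hs
  · have d1 := (ray h2 h3 a θ ha hθ 1 hone s hs).2
    have d2 : DifferentiableAt ℂ (fun s : ℂ => u ^ (-s)) s :=
      (differentiableAt_id.neg).const_cpow (Or.inl hu0)
    exact d2.mul d1
  · rw [(direct h1 a θ ha hθ u hu s hs).2, (direct h1 a θ ha hθ 1 hone s hs).2,
      Complex.one_cpow, one_mul]

end Pool.Agent.Q2.BZ
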