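import Mathlib
import Pool.Agent.Q155.BZ.Stm
import Pool.Agent.Q2.BZ.Rot

set_option autoImplicit false

/-!
Project BZ: Mellin inversion on the line `Re s = 1` (BZ-9).
-/

open Complex Set Filter Asymptotics MeasureTheory Topology

namespace Pool.Agent.Q2.BZ

open Pool.Agent.Q155.BZ

/-- `f` is real on the positive reals -/
theorem f_real (a θ x : ℝ) :
    (starRingEnd ℂ) (f a θ (x : ℂ)) = f a θ (x : ℂ) := by
  simp only [f, h, map_sub, map_mul, map_add, map_div₀, map_pow, map_one, Complex.conj_ofReal,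
    ← Complex.exp_conj, map_neg]

/-- symmetry of the Mellin transform -/
theorem mellin_sym (a θ t : ℝ) :
    ‖mellin (fun x : ℝ => f a θ (x : ℂ)) (1 + ((-t : ℝ) : ℂ) * I)‖
      = ‖mellin (fun x : ℝ => f a θ (x : ℂ)) (1 + (t : ℂ) * I)‖ := by
  have e : mellin (fun x : ℝ => f a θ (x : ℂ)) (1 + ((-t : ℝ) : ℂ) * I)
      = (starRingEnd ℂ) (mellin (fun x : ℝ => f a θ (x : ℂ)) (1 + (t : ℂ) * I)) := by
    rw [mellin, mellin, ← integral_conj]
    apply setIntegral_congr_fun measurableSet_Ioi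
    intro x hx
    have hx0 : (0 : ℝ) < x := hx
    simp only [smul_eq_mul, map_mul, f_real]
    congr 1
    have harg : ((x : ℝ) : ℂ).arg ≠ Real.pi := by
      rw [Complex.arg_ofReal_of_nonneg hx0.le]
      exact Real.pi_pos.ne
    have h2 := Complex.cpow_conj ((x : ℝ) : ℂ) (1 + (t : ℂ) * I - 1) harg
    rw [Complex.conj_ofReal] at h2
    rw [← h2]
    congr 1
    simp only [map_sub, map_add, map_one, map_mul, Complex.conj_ofReal, Complex.conj_I,
      Complex.ofReal_neg]
    ring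
  rw [e, Complex.norm_conj]

/-- BZ-9 -/
theorem inv (h1 : S_ROT) (h2 : S_NEAR) (h3 : S_FAR) : S_INV := by
  intro a θ ha hθ
  have hcontM : Continuous fun t : ℝ =>
      mellin (fun x : ℝ => f a θ (x : ℂ)) (1 + (t : ℂ) * I) := by
    have e1 : (fun x : ℝ => f a θ (x : ℂ)) = fun x : ℝ => f a θ (1 * (x : ℂ)) := by
      funext x
      rw [one_mul]
    rw [continuous_iff_continuousAt]
    intro t
    have hd := (ray h2 h3 a θ ha hθ 1 (by simp) (1 + (t : ℂ) * I) (by simp)).2
    rw [← e1] at hd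
    have hc : ContinuousAt (fun t : ℝ => (1 + (t : ℂ) * I)) t := by fun_prop
    exact ContinuousAt.comp (f := fun t : ℝ => (1 + (t : ℂ) * I)) hd.continuousAt hc
  refine ⟨hcontM, ?_⟩
  intro z hz hint
  set M : ℂ → ℂ := mellin (fun x : ℝ => f a θ (x : ℂ)) with hM
  have hz0 : z ≠ 0 := by
    rintro rfl
    simp at hz
  set r : ℝ := ‖z‖ with hr
  have hr0 : 0 < r := norm_pos_iff.mpr hz0
  have hrc : (r : ℂ) ≠ 0 := by exact_mod_cast hr0.ne'
  set u : ℂ := z / (r : ℂ) with hu
  have hzu : u * (r : ℂ) = z := by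
    rw [hu]
    field_simp
  have hure : 0 < u.re := by
    rw [hu, Complex.div_ofReal_re]
    exact div_pos hz hr0
  have hu0 : u ≠ 0 := by
    rintro h
    rw [h] at hure
    simp at hure
  have hun : ‖u‖ = 1 := by
    rw [hu, norm_div, Complex.norm_real, Real.norm_eq_abs, abs_of_pos hr0, ← hr]
    exact div_self hr0.ne'
  have harg : Complex.arg u = Complex.arg z := by
    rw [← hzu, Complex.arg_mul_real hr0]
  set g : ℝ → ℂ := fun x : ℝ => f a θ (u * (x : ℂ)) with hg
  set A : ℝ := |Complex.arg z| with hA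
  -- Mellin transform of g on the line
  have hmg : ∀ t : ℝ, mellin g (1 + (t : ℂ) * I)
      = u ^ (-(1 + (t : ℂ) * I)) * M (1 + (t : ℂ) * I) := by
    intro t
    exact (h1 a θ ha hθ u hure (1 + (t : ℂ) * I) (by simp)).2
  have hnu : ∀ t : ℝ, ‖u ^ (-(1 + (t : ℂ) * I))‖ = Real.exp (Complex.arg z * t) := by
    intro t
    rw [Complex.norm_cpow_of_ne_zero hu0, hun, Real.one_rpow, harg]
    simp only [neg_im, add_im, one_im, mul_im, ofReal_re, I_im, mul_one, ofReal_im, I_re, mul_zero,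
      add_zero, zero_add, mul_neg, one_div, Real.exp_neg, inv_inv]
  have hnorm : ∀ t : ℝ, ‖mellin g (1 + (t : ℂ) * I)‖
      ≤ ‖M (1 + ((|t| : ℝ) : ℂ) * I)‖ * Real.exp (A * |t|) := by
    intro t
    rw [hmg t, norm_mul, hnu t, mul_comm]
    have e1 : ‖M (1 + ((|t| : ℝ) : ℂ) * I)‖ = ‖M (1 + (t : ℂ) * I)‖ := by
      rcases abs_choice t with h | h
      · rw [h]
      · rw [h]
        exact mellin_sym a θ t
    rw [e1]
    apply mul_le_mul_of_nonneg_left _ (norm_nonneg _)
    apply Real.exp_le_exp.mpr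
    calc Complex.arg z * t ≤ |Complex.arg z * t| := le_abs_self _
      _ = A * |t| := abs_mul _ _
  set K : ℝ → ℝ := fun t => ‖M (1 + (t : ℂ) * I)‖ * Real.exp (A * t) with hK
  have hKint : Integrable (fun t : ℝ => K |t|) := by
    have hf : IntegrableOn (fun t : ℝ => K |t|) (Ioi 0) := by
      refine IntegrableOn.congr_fun hint (fun t ht => ?_) measurableSet_Ioi
      have ht0 : (0 : ℝ) < t := ht
      simp only [hK]
      rw [abs_of_pos ht0]
    have int_Iic : IntegrableOn (fun x ↦ K |x|) (Iic 0) := by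
      rw [← Measure.map_neg_eq_self (volume : Measure ℝ)]
      let m : MeasurableEmbedding fun x : ℝ => -x := (Homeomorph.neg ℝ).measurableEmbedding
      rw [m.integrableOn_map_iff]
      simp_rw [Function.comp_def, abs_neg, neg_preimage, neg_Iic, neg_zero]
      exact Iff.mpr integrableOn_Ici_iff_integrableOn_Ioi hf
    rw [← integrableOn_univ, ← Iic_union_Ioi (a := (0 : ℝ))]
    exact int_Iic.union hf
  have hcg : Continuous fun t : ℝ => mellin g (1 + (t : ℂ) * I) := by
    have : (fun t : ℝ => mellin g (1 + (t : ℂ) * I))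
        = fun t : ℝ => u ^ (-(1 + (t : ℂ) * I)) * M (1 + (t : ℂ) * I) := funext hmg
    rw [this]
    apply Continuous.mul _ hcontM
    exact Continuous.const_cpow (by fun_prop) (Or.inl hu0)
  have hvert : Complex.VerticalIntegrable (mellin g) 1 := by
    rw [Complex.VerticalIntegrable]
    refine Integrable.mono' hKint ?_ ?_
    · have := hcg.aestronglyMeasurable (μ := (volume : Measure ℝ))
      simpa using this
    · refine Eventually.of_forall fun t => ?_
      have := hnorm t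
      simpa using this
  have hconv : MellinConvergent g ((1 : ℝ) : ℂ) :=
    (h1 a θ ha hθ u hure ((1 : ℝ) : ℂ) (by simp)).1
  have hcat : ContinuousAt g r :=
    ((h3 a θ ha hθ u hure).1).continuousAt (Ioi_mem_nhds hr0)
  have hinv := mellinInv_mellin_eq 1 g hr0 hconv hvert hcat
  have hgr : g r = f a θ z := by
    simp only [hg]
    rw [hzu]
  rw [← hgr, ← hinv, mellinInv]
  have hpi := Real.pi_pos
  have hbound : ‖∫ y : ℝ, (r : ℂ) ^ (-(((1 : ℝ) : ℂ) + (y : ℂ) * I)) •
      mellin g (((1 : ℝ) : ℂ) + (y : ℂ) * I)‖ ≤ ∫ y : ℝ, r⁻¹ * K |y| := by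
    refine norm_integral_le_of_norm_le (hKint.const_mul _) (Eventually.of_forall fun y => ?_)
    rw [norm_smul, Complex.norm_cpow_eq_rpow_re_of_pos hr0]
    have e2 : (-(((1 : ℝ) : ℂ) + (y : ℂ) * I)).re = -1 := by simp
    rw [e2, Real.rpow_neg_one, Complex.ofReal_one]
    exact mul_le_mul_of_nonneg_left (hnorm y) (inv_nonneg.mpr hr0.le)
  have htwo : ∫ y : ℝ, K |y| = 2 * ∫ y in Ioi (0 : ℝ), K y := integral_comp_abs
  rw [norm_smul]
  have e3 : ‖(1 / (2 * Real.pi) : ℝ)‖ = 1 / (2 * Real.pi) := by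
    rw [Real.norm_eq_abs, abs_of_pos (by positivity)]
  rw [e3]
  calc 1 / (2 * Real.pi) * ‖∫ y : ℝ, (r : ℂ) ^ (-(((1 : ℝ) : ℂ) + (y : ℂ) * I)) •
      mellin g (((1 : ℝ) : ℂ) + (y : ℂ) * I)‖
      ≤ 1 / (2 * Real.pi) * ∫ y : ℝ, r⁻¹ * K |y| :=
        mul_le_mul_of_nonneg_left hbound (by positivity)
    _ = 1 / (Real.pi * r) * ∫ t in Ioi (0 : ℝ), K t := by
        rw [integral_const_mul, htwo]
        field_simp

end Pool.Agent.Q2.BZ
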