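import Mathlib
import Pool.Agent.Q155.BZ.Stm
import Pool.Agent.Q2.BZ.Rot

set_option autoImplicit false

/-!
Project BZ: the Mellin transform of `f` in terms of the continuation (BZ-14).
-/

open Complex Set Filter Asymptotics MeasureTheory Topology

namespace Pool.Agent.Q2.BZ

open Pool.Agent.Q155.BZ

theorem gammaDiff (s : ℂ) (hs : 0 < s.re) : DifferentiableAt ℂ Gamma s := by
  apply Complex.differentiableAt_Gamma
  intro m hm
  have h := congrArg Complex.re hm
  simp only [neg_re, natCast_re] at h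
  have h2 : (0 : ℝ) ≤ (m : ℝ) := Nat.cast_nonneg m
  linarith

theorem gammaShift (s : ℂ) (h1 : s ≠ 1) (h2 : s ≠ 2) :
    Gamma s = (s - 1) * Gamma (s - 1) ∧ Gamma (s - 1) = (s - 2) * Gamma (s - 2) := by
  constructor
  · have := Complex.Gamma_add_one (s - 1) (sub_ne_zero.mpr h1)
    rwa [sub_add_cancel] at this
  · have := Complex.Gamma_add_one (s - 2) (sub_ne_zero.mpr h2)
    have e : s - 2 + 1 = s - 1 := by ring
    rwa [e] at this

/-- BZ-14 -/
theorem val (h1 : S_SER) (h2 : S_NEAR) (h3 : S_FAR) (h4 : S_EX) (h5 : S_UNI) : S_VAL := by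
  intro a θ ha hθ F hF s hs hs1 hs2
  obtain ⟨F0, Ψ, hF0, hΨ, hFΨ⟩ := h4 a θ ha hθ
  rw [h5 a θ F F0 hF hF0 s hs1 hs2]
  have e1 : (fun x : ℝ => f a θ (x : ℂ)) = fun x : ℝ => f a θ (1 * (x : ℂ)) := by
    funext x
    rw [one_mul]
  have hone : 0 < (1 : ℂ).re := by simp
  rw [e1]
  have key := half
    (fun s => (s - 1) * (s - 2) * mellin (fun x : ℝ => f a θ (1 * (x : ℂ))) s)
    (fun s => Gamma s * Ψ s - ((1 / θ : ℝ) : ℂ) * Gamma s
      - ((b1 a θ : ℝ) : ℂ) * ((s - 2) * Gamma s)) (fun s hs => ?_) (fun s hs => ?_)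
      (fun s hs => ?_) s hs
  · obtain ⟨g1, g2⟩ := gammaShift s hs1 hs2
    have n1 : s - 1 ≠ 0 := sub_ne_zero.mpr hs1
    have n2 : s - 2 ≠ 0 := sub_ne_zero.mpr hs2
    have hΨs : Ψ s = F0 s * ((s - 1) * (s - 2)) := by
      rw [hFΨ s]
      field_simp
    apply mul_left_cancel₀ (mul_ne_zero n1 n2)
    rw [key, hΨs]
    have g3 : Gamma s = (s - 1) * ((s - 2) * Gamma (s - 2)) := by
      rw [← g2]
      exact g1
    rw [g2, g3]
    ring
  · have d1 := (ray h2 h3 a θ ha hθ 1 hone s hs).2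
    have d2 : DifferentiableAt ℂ (fun s : ℂ => (s - 1) * (s - 2)) s := by fun_prop
    exact d2.mul d1
  · have d1 := gammaDiff s hs
    have d2 : DifferentiableAt ℂ Ψ s := hΨ s
    fun_prop
  · have hne1 : s ≠ 1 := by
      rintro rfl
      norm_num at hs
    have hne2 : s ≠ 2 := by
      rintro rfl
      norm_num at hs
    obtain ⟨g1, g2⟩ := gammaShift s hne1 hne2
    have n1 : s - 1 ≠ 0 := sub_ne_zero.mpr hne1
    have n2 : s - 2 ≠ 0 := sub_ne_zero.mpr hne2
    have hΨs : Ψ s = Z a θ s * ((s - 1) * (s - 2)) := by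
      rw [← hF0.2 s hs, hFΨ s]
      field_simp
    have hd := (direct h1 a θ ha hθ 1 hone s hs).2
    rw [hd, Complex.one_cpow, hΨs]
    have g3 : Gamma s = (s - 1) * ((s - 2) * Gamma (s - 2)) := by
      rw [← g2]
      exact g1
    rw [g2, g3]
    ring

end Pool.Agent.Q2.BZ
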